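import Mathlib

set_option autoImplicit false
set_option linter.unusedSectionVars false

/-!
# Affine subspaces of small codimension contain combinatorial lines
-/

namespace Pool.Agent.H64.L3

open Finset

variable {p m : ℕ} [Fact p.Prime]

/-- `W` takes all the values on `I` -/
def Sur (W : Submodule (ZMod p) (Fin m → ZMod p)) (I : Finset (Fin m)) : Prop :=
  ∀ t : Fin m → ZMod p, ∃ w ∈ W, ∀ i ∈ I, w i = t i

/-- information sets -/
theorem exists_info (W : Submodule (ZMod p) (Fin m → ZMod p)) :
    ∃ I : Finset (Fin m), Sur W I ∧ Module.finrank (ZMod p) W ≤ I.card := by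
  classical
  obtain ⟨I, hI, hmax⟩ := Finset.exists_max_image
    ((Finset.univ : Finset (Finset (Fin m))).filter (fun I => Sur W I)) Finset.card
    ⟨∅, Finset.mem_filter.2 ⟨Finset.mem_univ _, fun t => ⟨0, W.zero_mem, by simp⟩⟩⟩
  have hSI : Sur W I := (Finset.mem_filter.1 hI).2
  refine ⟨I, hSI, ?_⟩
  have hker : ∀ w ∈ W, (∀ i ∈ I, w i = 0) → w = 0 := by
    intro w hw hwI
    by_contra hne
    obtain ⟨j, hj⟩ : ∃ j, w j ≠ 0 := by
      by_contra hcon
      push Not at hcon
      exact hne (funext hcon)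
    have hjI : j ∉ I := fun h => hj (hwI j h)
    have hS : Sur W (insert j I) := by
      intro t
      obtain ⟨v, hv, hvt⟩ := hSI t
      refine ⟨v + ((t j - v j) / w j) • w, W.add_mem hv (W.smul_mem _ hw), ?_⟩
      intro i hi
      rcases Finset.mem_insert.1 hi with rfl | hi
      · simp only [Pi.add_apply, Pi.smul_apply, smul_eq_mul]
        rw [div_mul_cancel₀ _ hj]
        ring
      · simp only [Pi.add_apply, Pi.smul_apply, smul_eq_mul]
        rw [hwI i hi, mul_zero, add_zero, hvt i hi]
    have h1 := hmax (insert j I) (Finset.mem_filter.2 ⟨Finset.mem_univ _, hS⟩)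
    rw [Finset.card_insert_of_notMem hjI] at h1
    omega
  let T : W →ₗ[ZMod p] (I → ZMod p) :=
    { toFun := fun w i => w.1 i.1
      map_add' := fun _ _ => rfl
      map_smul' := fun _ _ => rfl }
  have hT : Function.Injective T := by
    rw [injective_iff_map_eq_zero]
    intro w hw
    exact Subtype.ext (hker w.1 w.2 fun i hi => congrFun hw ⟨i, hi⟩)
  have h2 := LinearMap.finrank_le_finrank_of_injective hT
  rwa [Module.finrank_fintype_fun_eq_card, Fintype.card_coe] at h2

/-- a vector with entries `0`, `1` supported in a given set (Chevalley–Warning) -/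
theorem zero_one (W : Submodule (ZMod p) (Fin m → ZMod p)) (D : ℕ)
    (hD : m ≤ Module.finrank (ZMod p) W + D) (I : Finset (Fin m)) (hI : D * (p - 1) < I.card) :
    ∃ e ∈ W, e ≠ 0 ∧ (∀ i, e i = 0 ∨ e i = 1) ∧ ∀ i, i ∉ I → e i = 0 := by
  classical
  have hp : p.Prime := Fact.out
  have hp1 : 0 < p - 1 := by have := hp.two_le; omega
  let Q := (Fin m → ZMod p) ⧸ W
  obtain ⟨r, hr⟩ : ∃ r, r = Module.finrank (ZMod p) Q := ⟨_, rfl⟩
  have hrD : r ≤ D := by
    have h1 := Submodule.finrank_quotient_add_finrank W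
    rw [Module.finrank_fintype_fun_eq_card, Fintype.card_fin] at h1
    have h2 : r + Module.finrank (ZMod p) W = m := by rw [hr]; exact h1
    omega
  let B : Module.Basis (Fin r) (ZMod p) Q := Module.finBasisOfFinrankEq (ZMod p) Q hr.symm
  let f : Fin r → ((Fin m → ZMod p) →ₗ[ZMod p] ZMod p) := fun j => (B.coord j).comp W.mkQ
  have hf : ∀ z, (∀ j, f j z = 0) → z ∈ W := by
    intro z hz
    have h1 : W.mkQ z = 0 := by
      apply B.ext_elem
      intro j
      rw [map_zero, Finsupp.zero_apply]
      exact hz j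
    rwa [Submodule.mkQ_apply, Submodule.Quotient.mk_eq_zero] at h1
  let P : Fin r → MvPolynomial I (ZMod p) := fun j =>
    ∑ i : I, MvPolynomial.C (f j (Pi.single i.1 1)) * MvPolynomial.X i ^ (p - 1)
  have hdeg : ∀ j, (P j).totalDegree ≤ p - 1 := by
    intro j
    refine MvPolynomial.totalDegree_finsetSum_le fun i _ => ?_
    refine (MvPolynomial.totalDegree_mul _ _).trans ?_
    rw [MvPolynomial.totalDegree_C, zero_add]
    refine (MvPolynomial.totalDegree_pow _ _).trans ?_
    rw [MvPolynomial.totalDegree_X, mul_one]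
  have hsum : ∑ j, (P j).totalDegree < Fintype.card I := by
    calc ∑ j, (P j).totalDegree ≤ ∑ _j : Fin r, (p - 1) := Finset.sum_le_sum fun j _ => hdeg j
      _ = r * (p - 1) := by rw [Finset.sum_const, Finset.card_univ, Fintype.card_fin, smul_eq_mul]
      _ ≤ D * (p - 1) := Nat.mul_le_mul_right _ hrD
      _ < Fintype.card I := by rw [Fintype.card_coe]; exact hI
  have hdvd : p ∣ Nat.card {x : I → ZMod p // ∀ j, MvPolynomial.eval x (P j) = 0} := by
    have aux : ∀ (α : Type) (inst : Fintype α), @Fintype.card α inst = Nat.card α :=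
      fun α inst => (@Nat.card_eq_fintype_card α inst).symm
    have h := char_dvd_card_solutions_of_fintype_sum_lt (K := ZMod p) p (f := P) hsum
    rw [aux] at h
    exact h
  have heval : ∀ (t : I → ZMod p) j, MvPolynomial.eval t (P j) =
      ∑ i : I, f j (Pi.single i.1 1) * t i ^ (p - 1) := by
    intro t j
    simp only [P, map_sum, map_mul, MvPolynomial.eval_C, map_pow, MvPolynomial.eval_X]
  have h0 : ∀ j, MvPolynomial.eval (0 : I → ZMod p) (P j) = 0 := by
    intro j
    rw [heval]
    apply Finset.sum_eq_zero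
    intro i _
    rw [Pi.zero_apply, zero_pow hp1.ne', mul_zero]
  obtain ⟨t, ht0, ht⟩ : ∃ t : I → ZMod p, t ≠ 0 ∧ ∀ j, MvPolynomial.eval t (P j) = 0 := by
    by_contra hcon
    push Not at hcon
    have h1 : Nat.card {x : I → ZMod p // ∀ j, MvPolynomial.eval x (P j) = 0} = 1 := by
      rw [Nat.card_eq_fintype_card, Fintype.card_eq_one_iff]
      refine ⟨⟨0, h0⟩, fun x => Subtype.ext ?_⟩
      by_contra hx
      obtain ⟨j, hj⟩ := hcon x.1 hx
      exact hj (x.2 j)
    rw [h1] at hdvd
    have := Nat.le_of_dvd one_pos hdvd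
    have := hp.two_le
    omega
  let e : Fin m → ZMod p := fun i => if h : i ∈ I then t ⟨i, h⟩ ^ (p - 1) else 0
  have he : ∀ i, e i = 0 ∨ e i = 1 := by
    intro i
    by_cases h : i ∈ I
    · simp only [e]
      rw [dif_pos h]
      by_cases ht' : t ⟨i, h⟩ = 0
      · left; rw [ht', zero_pow hp1.ne']
      · right; exact ZMod.pow_card_sub_one_eq_one ht'
    · left
      simp only [e]
      rw [dif_neg h]
  refine ⟨e, ?_, ?_, he, ?_⟩
  · apply hf
    intro j
    have h1 : f j e = ∑ i, e i * f j (Pi.single i 1) := by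
      rw [LinearMap.pi_apply_eq_sum_univ (f j) e]
      refine Finset.sum_congr rfl fun i _ => ?_
      rw [smul_eq_mul]
      congr 2
      funext i'
      rw [Pi.single_apply]
      by_cases h : i = i'
      · rw [if_pos h, if_pos h.symm]
      · rw [if_neg h, if_neg (fun h' => h h'.symm)]
    have h2 : ∑ i, e i * f j (Pi.single i 1) = ∑ i ∈ I, e i * f j (Pi.single i 1) := by
      symm
      apply Finset.sum_subset (Finset.subset_univ _)
      intro i _ hi
      simp only [e]
      rw [dif_neg hi, zero_mul]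
    rw [h1, h2, ← Finset.sum_coe_sort, ← ht j, heval]
    refine Finset.sum_congr rfl fun i _ => ?_
    simp only [e]
    rw [dif_pos i.2, mul_comm]
  · intro hz
    apply ht0
    funext i
    have h1 := congrFun hz i.1
    simp only [e] at h1
    rw [dif_pos i.2, Pi.zero_apply] at h1
    exact (pow_eq_zero_iff hp1.ne').1 h1
  · intro i hi
    simp only [e]
    rw [dif_neg hi]

/-- an affine subspace of codimension `D` with `p D < m` contains a combinatorial line -/
theorem line (W : Submodule (ZMod p) (Fin m → ZMod p)) (y : Fin m → ZMod p) (D : ℕ)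
    (hD : m ≤ Module.finrank (ZMod p) W + D) (hm : p * D < m) :
    ∃ x e : Fin m → ZMod p, e ≠ 0 ∧ (∀ i, e i = 0 ∨ e i = 1) ∧ (∀ i, e i = 1 → x i = 0) ∧
      ∀ t : ZMod p, ∃ w ∈ W, x + t • e = y + w := by
  have hp : p.Prime := Fact.out
  obtain ⟨I, hI, hcard⟩ := exists_info W
  obtain ⟨w0, hw0, hw0I⟩ := hI (fun i => - y i)
  have hlt : D * (p - 1) < I.card := by
    have h1 : D * (p - 1) + D = p * D := by
      obtain ⟨q, rfl⟩ : ∃ q, p = q + 1 := ⟨p - 1, by have := hp.two_le; omega⟩
      rw [Nat.add_sub_cancel]; ring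
    omega
  obtain ⟨e, heW, he0, he01, heI⟩ := zero_one W D hD I hlt
  refine ⟨y + w0, e, he0, he01, ?_, fun t => ⟨w0 + t • e, W.add_mem hw0 (W.smul_mem _ heW), ?_⟩⟩
  · intro i hi
    have hiI : i ∈ I := by
      by_contra h
      rw [heI i h] at hi
      exact zero_ne_one hi
    rw [Pi.add_apply, hw0I i hiI]
    ring
  · rw [add_assoc]

/-- the digits in base `p` of `a` -/
def dig (p m : ℕ) (a : ℕ) : Fin m → ZMod p := fun i => ((a / p ^ i.val : ℕ) : ZMod p)

/-- the number with the given digits -/
def nval {p m : ℕ} (x : Fin m → ZMod p) : ℕ := ∑ i : Fin m, (x i).val * p ^ i.val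

theorem sum_digits (b : ℕ) (m n : ℕ) :
    ∑ i ∈ range m, (n / b ^ i % b) * b ^ i = n % b ^ m := by
  induction m with
  | zero => simp [Nat.mod_one]
  | succ m ih =>
    rw [Finset.sum_range_succ, ih, Nat.mod_pow_succ]
    ring

theorem nval_dig (a : ℕ) (ha : a < p ^ m) : nval (dig p m a) = a := by
  have hp : p.Prime := Fact.out
  unfold nval dig
  simp only [ZMod.val_natCast]
  rw [Fin.sum_univ_eq_sum_range (fun i => (a / p ^ i % p) * p ^ i) m, sum_digits,
    Nat.mod_eq_of_lt ha]

theorem nval_lt (x : Fin m → ZMod p) : nval x < p ^ m := by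
  have hp : p.Prime := Fact.out
  unfold nval
  induction m with
  | zero => simp
  | succ m ih =>
    rw [Fin.sum_univ_castSucc]
    have h1 := ih (fun i => x i.castSucc)
    have h2 : (x (Fin.last m)).val ≤ p - 1 := by
      have := ZMod.val_lt (x (Fin.last m))
      omega
    have h3 : (x (Fin.last m)).val * p ^ m ≤ (p - 1) * p ^ m := Nat.mul_le_mul_right _ h2
    have h4 : (p - 1) * p ^ m + p ^ m = p ^ (m + 1) := by
      obtain ⟨q, rfl⟩ : ∃ q, p = q + 1 := ⟨p - 1, by have := hp.two_le; omega⟩
      rw [Nat.add_sub_cancel]; ring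
    have h5 : ∑ i : Fin m, (x i.castSucc).val * p ^ (i.castSucc).val < p ^ m := h1
    rw [Fin.val_last]
    omega

theorem dig_nval (x : Fin m → ZMod p) : dig p m (nval x) = x := by
  have hp : p.Prime := Fact.out
  have hp0 : 0 < p := hp.pos
  -- both have the same value; use the injectivity of the digits
  have key : ∀ (m : ℕ) (x x' : Fin m → ZMod p), nval x = nval x' → x = x' := by
    intro m
    induction m with
    | zero => intro x x' _; exact Subsingleton.elim _ _
    | succ m ih =>
      intro x x' h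
      unfold nval at h
      rw [Fin.sum_univ_castSucc, Fin.sum_univ_castSucc] at h
      simp only [Fin.val_castSucc, Fin.val_last] at h
      have h1 : ∑ i : Fin m, (x i.castSucc).val * p ^ i.val < p ^ m :=
        nval_lt (fun i : Fin m => x i.castSucc)
      have h1' : ∑ i : Fin m, (x' i.castSucc).val * p ^ i.val < p ^ m :=
        nval_lt (fun i : Fin m => x' i.castSucc)
      have hq : 0 < p ^ m := by positivity
      have h2 : (x (Fin.last m)).val = (x' (Fin.last m)).val := by
        have e1 : (∑ i : Fin m, (x i.castSucc).val * p ^ i.val + (x (Fin.last m)).val * p ^ m) / p ^ m =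
            (x (Fin.last m)).val := by
          rw [Nat.add_mul_div_right _ _ hq, Nat.div_eq_of_lt h1, Nat.zero_add]
        have e2 : (∑ i : Fin m, (x' i.castSucc).val * p ^ i.val + (x' (Fin.last m)).val * p ^ m) / p ^ m =
            (x' (Fin.last m)).val := by
          rw [Nat.add_mul_div_right _ _ hq, Nat.div_eq_of_lt h1', Nat.zero_add]
        rw [← e1, ← e2, h]
      rw [h2] at h
      have h3 := ih (fun i => x i.castSucc) (fun i => x' i.castSucc) (Nat.add_right_cancel h)
      funext i
      refine Fin.lastCases ?_ (fun j => ?_) i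
      · exact ZMod.val_injective p h2
      · exact congrFun h3 j
  exact key m _ _ (nval_dig (nval x) (nval_lt x))

theorem dig_inj (a a' : ℕ) (ha : a < p ^ m) (ha' : a' < p ^ m) (h : dig p m a = dig p m a') :
    a = a' := by
  rw [← nval_dig (p := p) (m := m) a ha, ← nval_dig (p := p) (m := m) a' ha', h]

/-- the progression of a combinatorial line -/
theorem nval_line (x e : Fin m → ZMod p) (he : ∀ i, e i = 0 ∨ e i = 1)
    (hx : ∀ i, e i = 1 → x i = 0) (t : ℕ) (ht : t < p) :
    nval (x + (t : ZMod p) • e) = nval x + t * nval e := by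
  have hp : p.Prime := Fact.out
  have : Fact (1 < p) := ⟨hp.one_lt⟩
  unfold nval
  rw [Finset.mul_sum, ← Finset.sum_add_distrib]
  refine Finset.sum_congr rfl fun i _ => ?_
  simp only [Pi.add_apply, Pi.smul_apply, smul_eq_mul]
  rcases he i with h | h
  · rw [h, mul_zero, add_zero, ZMod.val_zero]; ring
  · rw [h, hx i h, mul_one, zero_add, ZMod.val_zero, ZMod.val_one, ZMod.val_natCast_of_lt ht]
    ring

theorem nval_pos (e : Fin m → ZMod p) (he : e ≠ 0) : 0 < nval e := by
  have hp : p.Prime := Fact.out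
  obtain ⟨i, hi⟩ : ∃ i, e i ≠ 0 := by
    by_contra hcon
    push Not at hcon
    exact he (funext hcon)
  unfold nval
  refine Finset.sum_pos' (fun _ _ => Nat.zero_le _) ⟨i, Finset.mem_univ _, ?_⟩
  have h1 : 0 < (e i).val := by
    rw [Nat.pos_iff_ne_zero, ne_eq, ZMod.val_eq_zero]
    exact hi
  have h2 : 0 < p ^ i.val := Nat.pow_pos hp.pos
  exact Nat.mul_pos h1 h2

/-- the digits of the difference -/
theorem nval_digits (e : Fin m → ZMod p) (he : ∀ i, e i = 0 ∨ e i = 1) (i : ℕ) :
    nval e / p ^ i % p ≤ 1 := by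
  have hp : p.Prime := Fact.out
  have : Fact (1 < p) := ⟨hp.one_lt⟩
  rcases Nat.lt_or_ge i m with h | h
  · have h1 : dig p m (nval e) ⟨i, h⟩ = e ⟨i, h⟩ := by rw [dig_nval]
    unfold dig at h1
    have h2 := congrArg ZMod.val h1
    rw [ZMod.val_natCast] at h2
    rw [h2]
    rcases he ⟨i, h⟩ with h3 | h3
    · rw [h3, ZMod.val_zero]; omega
    · rw [h3, ZMod.val_one]
  · have h1 : nval e < p ^ i := (nval_lt e).trans_le (Nat.pow_le_pow_right hp.pos h)
    rw [Nat.div_eq_of_lt h1, Nat.zero_mod]
    omega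

end Pool.Agent.H64.L3
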